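import Pool.Agent.H221Z.MBasis

set_option autoImplicit false

open scoped ENNReal

/-- There is a Banach space with an extended M-basis that contains a closed subspace isomorphic to
the space of bounded scalar sequences. -/
theorem Pool.Agent.Results.MP_810de6_an.AMBasisLinf.result (𝕜 : Type) [RCLike 𝕜] :
    ∃ (E : Type) (_ : NormedAddCommGroup E) (_ : NormedSpace 𝕜 E) (_ : CompleteSpace E)
      (I : Type) (x : I → E) (f : I → E →L[𝕜] 𝕜),
      (∀ i, f i (x i) = 1) ∧ (∀ i j, i ≠ j → f j (x i) = 0) ∧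
      (∀ v : E, (∀ i, f i v = 0) → v = 0) ∧
      (Submodule.span 𝕜 (Set.range x)).topologicalClosure = ⊤ ∧
      ∃ G : Submodule 𝕜 E, IsClosed (G : Set E) ∧
        Nonempty (G ≃L[𝕜] lp (fun _ : ℕ => 𝕜) ∞) :=
  Pool.Agent.H221Z.MBasis.main 𝕜
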